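import Pool.Agent.helper76.FF2.Spec

/-!
# Project FF2, row EUL: the sum of `g / (S G')` over the roots of `G` depends only on `G` modulo `S`
-/

set_option autoImplicit false

namespace Pool.Agent.FF2

open Polynomial

theorem EUL_monic {K : Type*} [Field K] (R : Finset K) : (pol R).Monic :=
  monic_prod_of_monic _ _ fun x _ => monic_X_sub_C x

theorem EUL_natDegree {K : Type*} [Field K] (R : Finset K) : (pol R).natDegree = R.card := by
  rw [pol, natDegree_prod_of_monic _ _ fun x _ => monic_X_sub_C x]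
  simp

theorem EUL_eval {K : Type*} [Field K] (R : Finset K) {x : K} (hx : x ∈ R) : (pol R).eval x = 0 := by
  rw [pol, eval_prod]
  exact Finset.prod_eq_zero hx (by simp)

theorem EUL_coprime {K : Type*} [Field K] (R : Finset K) (S : K[X]) (h : ∀ x ∈ R, S.eval x ≠ 0) :
    IsCoprime (pol R) S := by
  refine IsCoprime.prod_left fun x hx => ?_
  rw [(irreducible_X_sub_C x).coprime_iff_not_dvd, dvd_iff_isRoot]
  exact h x hx

theorem EUL_sum {K : Type*} [Field K] (R : Finset K) (h : K[X]) (hd : h.degree < R.card) :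
    ∑ x ∈ R, h.eval x / (derivative (pol R)).eval x = h.coeff (R.card - 1) := by
  classical
  rw [Lagrange.coeff_eq_sum (s := R) (v := fun x : K => x) (Function.injective_id.injOn) hd]
  refine Finset.sum_congr rfl fun x hx => ?_
  have h1 : (derivative (pol R)).eval x = (Lagrange.nodal (R.erase x) (fun y : K => y)).eval x :=
    Lagrange.eval_nodal_derivative_eval_node_eq (v := fun y : K => y) hx
  rw [h1, Lagrange.eval_nodal]

theorem EUL_deg {K : Type*} [Field K] (R : Finset K) (S g h k : K[X]) (hS : S.Monic)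
    (hg : g.natDegree < S.natDegree + R.card) (hk : k.degree < S.degree)
    (he : g = S * h + pol R * k) : h.degree < R.card := by
  by_cases hh : h = 0
  · rw [hh, degree_zero]
    exact WithBot.bot_lt_coe _
  have h1 : S * h = g - pol R * k := by rw [he]; ring
  have hSh : S * h ≠ 0 := mul_ne_zero hS.ne_zero hh
  have h2 : (S * h).natDegree = S.natDegree + h.natDegree := natDegree_mul hS.ne_zero hh
  have h3 : (pol R * k).natDegree < S.natDegree + R.card ∨ k = 0 := by
    by_cases hk0 : k = 0
    · exact Or.inr hk0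
    · refine Or.inl ?_
      rw [natDegree_mul (EUL_monic R).ne_zero hk0, EUL_natDegree]
      have := natDegree_lt_natDegree hk0 hk
      omega
  have h4 : (S * h).natDegree < S.natDegree + R.card := by
    rw [h1]
    rcases h3 with h3 | h3
    · exact (natDegree_sub_le _ _).trans_lt (max_lt hg h3)
    · rw [h3, mul_zero, sub_zero]
      exact hg
  rw [degree_eq_natDegree hh]
  have : h.natDegree < R.card := by omega
  exact_mod_cast this

theorem EUL_red {K : Type*} [Field K] (R : Finset K) (S g h k : K[X]) (hS : ∀ x ∈ R, S.eval x ≠ 0)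
    (he : g = S * h + pol R * k) :
    ∑ x ∈ R, g.eval x / (S.eval x * (derivative (pol R)).eval x) =
      ∑ x ∈ R, h.eval x / (derivative (pol R)).eval x := by
  refine Finset.sum_congr rfl fun x hx => ?_
  have : g.eval x = S.eval x * h.eval x := by
    rw [he, eval_add, eval_mul, eval_mul, EUL_eval R hx, zero_mul, add_zero]
  rw [this, mul_div_mul_left _ _ (hS x hx)]

theorem EUL (K : Type*) [Field K] : EUL_stmt K := by
  intro R₁ R₂ S g hS hcard hdvd h1 h2 hg
  rcases Nat.eq_zero_or_pos R₁.card with h0 | hpos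
  · have e1 : R₁ = ∅ := Finset.card_eq_zero.1 h0
    have e2 : R₂ = ∅ := Finset.card_eq_zero.1 (hcard.symm.trans h0)
    rw [e1, e2]
  obtain ⟨u, v, huv⟩ := EUL_coprime R₁ S h1
  obtain ⟨k, q, hk, hkq⟩ : ∃ k q : K[X], k.degree < S.degree ∧ g * u = k + S * q :=
    ⟨(g * u) %ₘ S, (g * u) /ₘ S, degree_modByMonic_lt _ hS, (modByMonic_add_div _ _).symm⟩
  obtain ⟨w, hw⟩ := hdvd
  have he1 : g = S * (pol R₁ * q + g * v) + pol R₁ * k := by
    linear_combination (-g) * huv + pol R₁ * hkq
  have he2 : g = S * (pol R₁ * q + g * v + w * k) + pol R₂ * k := by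
    linear_combination (-g) * huv + pol R₁ * hkq + k * hw
  have hd1 := EUL_deg R₁ S g _ k hS hg hk he1
  have hd2 := EUL_deg R₂ S g _ k hS (hcard ▸ hg) hk he2
  rw [EUL_red R₁ S g _ k h1 he1, EUL_red R₂ S g _ k h2 he2, EUL_sum R₁ _ hd1, EUL_sum R₂ _ hd2, ← hcard,
    coeff_add (pol R₁ * q + g * v) (w * k)]
  suffices hz : (w * k).coeff (R₁.card - 1) = 0 by rw [hz, add_zero]
  by_cases hwk : w * k = 0
  · rw [hwk, coeff_zero]
  have hw0 : w ≠ 0 := left_ne_zero_of_mul hwk
  have hk0 : k ≠ 0 := right_ne_zero_of_mul hwk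
  have hlt : (pol R₁ - pol R₂).natDegree < R₁.card := by
    have hne : pol R₁ - pol R₂ ≠ 0 := by
      rw [hw]
      exact mul_ne_zero hS.ne_zero hw0
    have hdeg : (pol R₁).degree = (pol R₂).degree := by
      rw [degree_eq_natDegree (EUL_monic R₁).ne_zero, degree_eq_natDegree (EUL_monic R₂).ne_zero,
        EUL_natDegree, EUL_natDegree, hcard]
    have := natDegree_lt_natDegree hne (degree_sub_lt_left hdeg (EUL_monic R₁).ne_zero
      ((EUL_monic R₁).leadingCoeff.trans (EUL_monic R₂).leadingCoeff.symm))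
    rwa [EUL_natDegree] at this
  rw [hw, natDegree_mul hS.ne_zero hw0] at hlt
  have hklt := natDegree_lt_natDegree hk0 hk
  refine coeff_eq_zero_of_natDegree_lt ?_
  rw [natDegree_mul hw0 hk0]
  omega

end Pool.Agent.FF2
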